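import Pool.Agent.W945.Pw.Stm

/-! Project PW: the decomposition of narrow functions. -/

namespace Pool.Agent.W308.Pw.SPLIT

open Finset Pool.Agent.W945.Pw

theorem count {n : ℕ} (ρ : Fin n → ℕ) (hρ : Function.Injective ρ) (k : ℕ) (hk : 1 ≤ k)
    (S : Finset (Fin n)) :
    (univ.filter (fun v => v ∈ S ∧ (S.filter (fun u => ρ u ≤ ρ v)).card = k)).card =
      if S.card < k then 0 else 1 := by
  split_ifs with h
  · rw [card_eq_zero, filter_eq_empty_iff]
    rintro v - ⟨-, h2⟩
    have := card_filter_le S (fun u => ρ u ≤ ρ v)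
    omega
  · have hmono : ∀ v ∈ S, ∀ v' ∈ S, ρ v < ρ v' →
        (S.filter (fun u => ρ u ≤ ρ v)).card < (S.filter (fun u => ρ u ≤ ρ v')).card := by
      intro v hv v' hv' hlt
      apply card_lt_card
      rw [ssubset_iff_of_subset]
      · exact ⟨v', mem_filter.2 ⟨hv', le_rfl⟩, fun h' => not_le.2 hlt (mem_filter.1 h').2⟩
      · intro u hu
        rw [mem_filter] at hu ⊢
        exact ⟨hu.1, hu.2.trans hlt.le⟩
    have hinj : ∀ v ∈ S, ∀ v' ∈ S,
        (S.filter (fun u => ρ u ≤ ρ v)).card = (S.filter (fun u => ρ u ≤ ρ v')).card → v = v' := by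
      intro v hv v' hv' he
      rcases lt_trichotomy (ρ v) (ρ v') with h1 | h1 | h1
      · exact absurd he (hmono v hv v' hv' h1).ne
      · exact hρ h1
      · exact absurd he (hmono v' hv' v hv h1).ne'
    have hmem : ∀ v ∈ S, (S.filter (fun u => ρ u ≤ ρ v)).card ∈ Icc 1 S.card := by
      intro v hv
      rw [mem_Icc]
      exact ⟨card_pos.2 ⟨v, mem_filter.2 ⟨hv, le_rfl⟩⟩, card_filter_le _ _⟩
    obtain ⟨v, hv, hvk⟩ : ∃ v ∈ S, (S.filter (fun u => ρ u ≤ ρ v)).card = k := by
      obtain ⟨v, hv, e⟩ := Finset.surj_on_of_inj_on_of_card_le (s := S) (t := Icc 1 S.card)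
        (fun v _ => (S.filter (fun u => ρ u ≤ ρ v)).card) hmem
        (fun v v' hv hv' he => hinj v hv v' hv' he) (by simp) k (mem_Icc.2 ⟨hk, by omega⟩)
      exact ⟨v, hv, e.symm⟩
    rw [card_eq_one]
    refine ⟨v, ?_⟩
    ext v'
    rw [mem_filter, mem_singleton]
    constructor
    · rintro ⟨-, hv', hk'⟩
      exact hinj v' hv' v hv (hk'.trans hvk.symm)
    · rintro rfl
      exact ⟨mem_univ _, hv, hvk⟩

theorem hat_sum {n : ℕ} {ι : Type} (s : Finset ι) (F : ι → (Fin n → Bool) → ℝ)
    (S : Finset (Fin n)) : hat (fun x => ∑ i ∈ s, F i x) S = ∑ i ∈ s, hat (F i) S := by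
  unfold hat avg
  rw [← Finset.sum_div, Finset.sum_comm]
  congr 1
  apply Finset.sum_congr rfl
  intro x _
  exact Finset.sum_mul _ _ _

theorem main : SPLIT.Stm := by
  classical
  intro hF hP n w k ρ f hk hρ hN
  choose A B hA hB hdA hdB hAB using fun v : Fin n => hN (ρ v + 1)
  have e1 : ∀ v, (univ.filter fun u => ρ u < ρ v + 1) = univ.filter fun u => ρ u ≤ ρ v := by
    intro v; ext u; simp only [mem_filter, mem_univ, true_and]; omega
  have e2 : ∀ v, (univ.filter fun u => ρ v + 1 ≤ ρ u) = univ.filter fun u => ρ v < ρ u := by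
    intro v; ext u; simp only [mem_filter, mem_univ, true_and]; omega
  have hdA' : ∀ v i, Dep (univ.filter fun u => ρ u ≤ ρ v) (A v i) := by
    intro v i; rw [← e1]; exact hdA v i
  have hdB' : ∀ v i, Dep (univ.filter fun u => ρ v < ρ u) (B v i) := by
    intro v i; rw [← e2]; exact hdB v i
  refine ⟨A, B, hA, hB, hdA', hdB', fun x => ?_⟩
  have key : ∀ v, ∑ i, top k ρ v (A v i) x * B v i x =
      ∑ S ∈ univ.filter (fun S : Finset (Fin n) =>
        v ∈ S ∧ (S.filter (fun u => ρ u ≤ ρ v)).card = k), hat f S * chi S x := by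
    intro v
    set Q := univ.filter fun u => ρ v < ρ u with hQ
    set T := univ.filter (fun S : Finset (Fin n) => S.card = k ∧ v ∈ S ∧ ∀ u ∈ S, ρ u ≤ ρ v)
      with hT
    have hBx : ∀ i, B v i x = ∑ γ ∈ Q.powerset, hat (B v i) γ * chi γ x := by
      intro i
      rw [(hF n (B v i)).1 x]
      symm
      apply sum_subset (subset_univ _)
      intro S _ hS
      rw [(hF n (B v i)).2.2 Q (hdB' v i) S (fun h => hS (mem_powerset.2 h)), zero_mul]
    have hfh : ∀ β ∈ T, ∀ γ ∈ Q.powerset, hat f (β ∪ γ) = ∑ i, hat (A v i) β * hat (B v i) γ := by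
      intro β hβ γ hγ
      have hff : f = fun x => ∑ i, A v i x * B v i x := funext (hAB v)
      conv_lhs => rw [hff]
      rw [hat_sum univ (fun i x => A v i x * B v i x)]
      apply sum_congr rfl
      intro i _
      refine hP n (univ.filter fun u => ρ u ≤ ρ v) Q (A v i) (B v i) ?_ (hdA' v i) (hdB' v i) β γ
        ?_ (mem_powerset.1 hγ)
      · rw [disjoint_left]
        intro u hu hu'
        rw [hQ, mem_filter] at hu'
        rw [mem_filter] at hu
        omega
      · intro u hu
        rw [hT, mem_filter] at hβ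
        exact mem_filter.2 ⟨mem_univ _, hβ.2.2.2 u hu⟩
    have hdisj : ∀ β ∈ T, ∀ γ ∈ Q.powerset, Disjoint β γ := by
      intro β hβ γ hγ
      rw [hT, mem_filter] at hβ
      rw [disjoint_left]
      intro u hu hu'
      have h1 := hβ.2.2.2 u hu
      have h2 := mem_powerset.1 hγ hu'
      rw [hQ, mem_filter] at h2
      omega
    have hstep : ∑ i, top k ρ v (A v i) x * B v i x =
        ∑ β ∈ T, ∑ γ ∈ Q.powerset, hat f (β ∪ γ) * chi (β ∪ γ) x := by
      have h1 : ∀ i, top k ρ v (A v i) x * B v i x = ∑ β ∈ T, ∑ γ ∈ Q.powerset,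
          (hat (A v i) β * hat (B v i) γ) * (chi β x * chi γ x) := by
        intro i
        rw [hBx i]
        unfold top
        rw [sum_mul_sum]
        apply sum_congr rfl
        intro β _
        apply sum_congr rfl
        intro γ _
        ring
      rw [sum_congr rfl fun i _ => h1 i, sum_comm]
      apply sum_congr rfl
      intro β hβ
      rw [sum_comm]
      apply sum_congr rfl
      intro γ hγ
      rw [hfh β hβ γ hγ, sum_mul]
      have h2 : chi (β ∪ γ) x = chi β x * chi γ x := by
        unfold chi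
        rw [prod_union (hdisj β hβ γ hγ)]
      rw [h2]
    rw [hstep, ← sum_product']
    refine sum_bij' (fun p _ => p.1 ∪ p.2)
      (fun S _ => (S.filter (fun u => ρ u ≤ ρ v), S.filter (fun u => ρ v < ρ u))) ?_ ?_ ?_ ?_ ?_
    · rintro ⟨β, γ⟩ hp
      rw [mem_product] at hp
      have hβ := hp.1
      have hγ := mem_powerset.1 hp.2
      rw [hT, mem_filter] at hβ
      rw [mem_filter]
      refine ⟨mem_univ _, mem_union_left _ hβ.2.2.1, ?_⟩
      have h3 : (β ∪ γ).filter (fun u => ρ u ≤ ρ v) = β := by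
        ext u
        rw [mem_filter, mem_union]
        constructor
        · rintro ⟨h4 | h4, h5⟩
          · exact h4
          · have := hγ h4
            rw [hQ, mem_filter] at this
            omega
        · intro h4
          exact ⟨Or.inl h4, hβ.2.2.2 u h4⟩
      rw [h3]
      exact hβ.2.1
    · intro S hS
      rw [mem_filter] at hS
      rw [mem_product]
      refine ⟨?_, ?_⟩
      · rw [hT, mem_filter]
        exact ⟨mem_univ _, hS.2.2, mem_filter.2 ⟨hS.2.1, le_rfl⟩, fun u hu => (mem_filter.1 hu).2⟩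
      · rw [mem_powerset]
        intro u hu
        exact mem_filter.2 ⟨mem_univ _, (mem_filter.1 hu).2⟩
    · rintro ⟨β, γ⟩ hp
      rw [mem_product] at hp
      have hβ := hp.1
      have hγ := mem_powerset.1 hp.2
      rw [hT, mem_filter] at hβ
      apply Prod.ext
      · ext u
        show u ∈ (β ∪ γ).filter (fun u => ρ u ≤ ρ v) ↔ u ∈ β
        rw [mem_filter, mem_union]
        constructor
        · rintro ⟨h4 | h4, h5⟩
          · exact h4
          · have := hγ h4
            rw [hQ, mem_filter] at this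
            omega
        · intro h4
          exact ⟨Or.inl h4, hβ.2.2.2 u h4⟩
      · ext u
        show u ∈ (β ∪ γ).filter (fun u => ρ v < ρ u) ↔ u ∈ γ
        rw [mem_filter, mem_union]
        constructor
        · rintro ⟨h4 | h4, h5⟩
          · have := hβ.2.2.2 u h4
            omega
          · exact h4
        · intro h4
          have := hγ h4
          rw [hQ, mem_filter] at this
          exact ⟨Or.inr h4, this.2⟩
    · intro S _
      ext u
      show u ∈ S.filter (fun u => ρ u ≤ ρ v) ∪ S.filter (fun u => ρ v < ρ u) ↔ u ∈ S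
      rw [mem_union, mem_filter, mem_filter]
      constructor
      · rintro (h | h)
        · exact h.1
        · exact h.1
      · intro h
        rcases le_or_gt (ρ u) (ρ v) with h1 | h1
        · exact Or.inl ⟨h, h1⟩
        · exact Or.inr ⟨h, h1⟩
    · intro p _
      rfl
  simp only [key]
  rw [(hF n f).1 x]
  have h1 : ∑ v, ∑ S ∈ univ.filter (fun S : Finset (Fin n) =>
        v ∈ S ∧ (S.filter (fun u => ρ u ≤ ρ v)).card = k), hat f S * chi S x =
      ∑ S : Finset (Fin n), (if S.card < k then 0 else hat f S * chi S x) := by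
    simp only [sum_filter]
    rw [sum_comm]
    apply sum_congr rfl
    intro S _
    rw [← sum_filter, sum_const, count ρ hρ k hk S]
    split_ifs
    · rw [zero_smul]
    · rw [one_smul]
  rw [h1]
  unfold low
  rw [sum_filter, ← sum_add_distrib]
  apply sum_congr rfl
  intro S _
  split_ifs <;> ring

end Pool.Agent.W308.Pw.SPLIT
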